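import Mathlib

/-!
# Nef line bundles on quotients of products: definitions

`F = F₁ × … × Fₘ` is a projective variety and `ℤ^ρ` a group of classes of line bundles on `F`, for
example the class group, if it is free, or a free subgroup of finite index of the Picard group of `F`.
It is given by the ring `R = ⨁ 𝒜 β`, `𝒜 β = H⁰(F, O_F(β))`, and the class `u` of an ample line bundle:
the points of `F` are given by the semistable points of the spectrum of `R`. A finite group `G` acts on
`F`, and `M = F / G`.
-/

set_option autoImplicit false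

namespace Pool.Agent.W4h4.SY

/-- The group `ℤ^ρ` of classes of line bundles on `F`. -/
abbrev Cl (ρ : ℕ) : Type := Fin ρ → ℤ

section F

variable {ρ : ℕ} {R : Type*} [CommRing R] [Algebra ℂ R] (𝒜 : Cl ρ → Submodule ℂ R)

/-- The point `p` of the spectrum of `R` is semistable, that is, it lies over a point of `F`: some
section of a multiple of the ample class `u` does not vanish at `p`. All points of `F` are obtained. -/
def Semistable (u : Cl ρ) (p : R →ₐ[ℂ] ℂ) : Prop := ∃ k : ℕ, 0 < k ∧ ∃ r ∈ 𝒜 (k • u), p r ≠ 0

/-- The class `β` is semiample on `F`: some multiple `k β`, `k > 0`, has at each point of `F` a section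
which does not vanish there. (A class of the factor `Fᵢ` is semiample on `Fᵢ` if and only if its
pullback to `F` is semiample.) -/
def Semiample (u β : Cl ρ) : Prop :=
  ∃ k : ℕ, 0 < k ∧ ∀ p : R →ₐ[ℂ] ℂ, Semistable 𝒜 u p → ∃ r ∈ 𝒜 (k • β), p r ≠ 0

/-- The class `β` is nef, if `a` is the class of an ample line bundle: `n β + a` is semiample for all
`n`. (If `β` is nef, then `n β + a` is ample; and if all the `n β + a` are semiample, then `β` is the
limit of the nef classes `β + a / n`.) On `F` we take `a = u`, and for classes of the factor `Fᵢ` we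
take for `a` the component of `u` in the class group of `Fᵢ`. -/
def Nef (u a β : Cl ρ) : Prop := ∀ n : ℕ, Semiample 𝒜 u (n • β + a)

/-- The class `β` is big, if `a` is the class of an ample line bundle: `k β - a` is the class of an
effective divisor for some `k > 0` (Kodaira's lemma). -/
def Big (a β : Cl ρ) : Prop := ∃ k : ℕ, 0 < k ∧ ∃ r ∈ 𝒜 (k • β - a), r ≠ 0

/-- `F` is not empty and `u` is ample: every class becomes semiample when a multiple of `u` is added. -/
structure IsVariety (u : Cl ρ) : Prop where
  point : ∃ p : R →ₐ[ℂ] ℂ, Semistable 𝒜 u p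
  ample : ∀ β : Cl ρ, ∃ k : ℕ, Semiample 𝒜 u (β + k • u)

/-- `F` is the product of varieties `F i`, and the group of classes is the direct sum of the groups of
classes of the `F i`, where `pr i` is the projection to the classes of `F i` (this holds if
`H¹(F i, O) = 0`): the sections of `O_F(β)` are sums of products of sections of the sheaves
`O_F(pr i β)`, the pullbacks of sheaves on the factors (Künneth formula). -/
structure IsProduct {m : ℕ} (pr : Fin m → Cl ρ →+ Cl ρ) : Prop where
  sum : ∀ β, ∑ i, pr i β = β
  orth : ∀ i k, i ≠ k → ∀ β, pr i (pr k β) = 0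
  kuenneth : ∀ β, ∀ r ∈ 𝒜 β, r ∈ Submodule.span ℂ
    {t | ∃ s : Fin m → R, (∀ i, s i ∈ 𝒜 (pr i β)) ∧ t = ∏ i, s i}

end F

section G

variable {ρ m : ℕ} {R : Type*} [CommRing R] [Algebra ℂ R] (𝒜 : Cl ρ → Submodule ℂ R)
  {G : Type*} [Group G]

/-- The group `G` acts on `R` by `φ`, and so on `F`, and on the classes by `σ`; the class `u` is
invariant; the elements of `G` permute the factors of `F` by `π`, and this action is transitive. (The
group which acts on `F` lifts to `R` after an extension by a finite group of characters of the torus,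
which acts trivially on `F`.) -/
structure IsAction (u : Cl ρ) (pr : Fin m → Cl ρ →+ Cl ρ) (φ : G →* (R ≃ₐ[ℂ] R))
    (σ : G →* AddMonoid.End (Cl ρ)) (π : G →* Equiv.Perm (Fin m)) : Prop where
  deg : ∀ g β, ∀ r ∈ 𝒜 β, φ g r ∈ 𝒜 (σ g β)
  ample : ∀ g, σ g u = u
  perm : ∀ g i β, σ g (pr i β) = pr (π g i) (σ g β)
  trans : ∀ i k, ∃ g, π g i = k

/-- A line bundle on `M = F / G`, given by its pullback to `F` with the action of `G`: an invariant
class and a character of `G`. (Every such pair is allowed; a positive multiple of every pair comes from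
a line bundle on `M`.) -/
structure Sheaf (σ : G →* AddMonoid.End (Cl ρ)) where
  deg : Cl ρ
  χ : G →* ℂˣ
  inv : ∀ g, σ g deg = deg

namespace Sheaf

variable {σ : G →* AddMonoid.End (Cl ρ)}

/-- The sections of the `k`-th power of the line bundle on `M`: the sections on `F` which are
compatible with the action of `G`. -/
def IsSection (φ : G →* (R ≃ₐ[ℂ] R)) (L : Sheaf σ) (k : ℕ) (r : R) : Prop :=
  r ∈ 𝒜 (k • L.deg) ∧ ∀ g, φ g r = ((L.χ g : ℂ) ^ k) • r

/-- The line bundle on `M` is semiample: some positive power has at each point of `M` a section which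
does not vanish there. -/
def IsSemiample (u : Cl ρ) (φ : G →* (R ≃ₐ[ℂ] R)) (L : Sheaf σ) : Prop :=
  ∃ k : ℕ, 0 < k ∧ ∀ p : R →ₐ[ℂ] ℂ, Semistable 𝒜 u p → ∃ r, L.IsSection 𝒜 φ k r ∧ p r ≠ 0

/-- The line bundle on `M` is nef: its pullback to `F` is nef. -/
def IsNef (u : Cl ρ) (L : Sheaf σ) : Prop := Nef 𝒜 u u L.deg

/-- The line bundle on `M` is big: its pullback to `F` is big. -/
def IsBig (u : Cl ρ) (L : Sheaf σ) : Prop := Big 𝒜 u L.deg

end Sheaf

/-- The conjecture for the quotient `M = F / G`: every nef line bundle on `M` which is not big is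
semiample. (On a primitive symplectic variety `M` the nef line bundle `L` is not big if and only if
`q_M(L) = 0`.) -/
def SYZQuotient (u : Cl ρ) (φ : G →* (R ≃ₐ[ℂ] R)) (σ : G →* AddMonoid.End (Cl ρ)) : Prop :=
  ∀ L : Sheaf σ, L.IsNef 𝒜 u → ¬ L.IsBig 𝒜 u → L.IsSemiample 𝒜 u φ

/-- The conjecture for the factor `F i` and the classes which are invariant under the stabiliser of
this factor in `G`: every such class on `F i` which is nef and not big is semiample. -/
def SYZFactor (u : Cl ρ) (pr : Fin m → Cl ρ →+ Cl ρ) (σ : G →* AddMonoid.End (Cl ρ))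
    (π : G →* Equiv.Perm (Fin m)) (i : Fin m) : Prop :=
  ∀ β, pr i β = β → (∀ g, π g i = i → σ g β = β) → Nef 𝒜 u (pr i u) β →
    ¬ Big 𝒜 (pr i u) β → Semiample 𝒜 u β

end G

end Pool.Agent.W4h4.SY
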