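import Pool.Agent.W4h4.SY.Defs

set_option autoImplicit false

namespace Pool.Agent.W4h4.SY

section F

variable {ρ m : ℕ} {R : Type*} [CommRing R] [Algebra ℂ R] {𝒜 : Cl ρ → Submodule ℂ R}
  {u : Cl ρ} {pr : Fin m → Cl ρ →+ Cl ρ}

theorem IsProduct.idem (h : IsProduct 𝒜 pr) (i : Fin m) (β : Cl ρ) : pr i (pr i β) = pr i β := by
  conv_rhs => rw [← h.sum (pr i β)]
  rw [Finset.sum_eq_single i]
  · intro k _ hk
    exact h.orth k i hk β
  · intro hk
    exact absurd (Finset.mem_univ i) hk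

theorem prod_eff (h : IsProduct 𝒜 pr) (i : Fin m) {β : Cl ρ} (hβ : ∃ r ∈ 𝒜 β, r ≠ 0) :
    ∃ r ∈ 𝒜 (pr i β), r ≠ 0 := by
  obtain ⟨r, hr, hr0⟩ := hβ
  by_contra hcon
  push Not at hcon
  apply hr0
  have h1 := h.kuenneth β r hr
  have h2 : Submodule.span ℂ {t : R | ∃ s : Fin m → R, (∀ i, s i ∈ 𝒜 (pr i β)) ∧ t = ∏ i, s i}
      ≤ ⊥ := by
    rw [Submodule.span_le]
    rintro t ⟨s, hs, rfl⟩
    change ∏ i, s i = 0
    exact Finset.prod_eq_zero (Finset.mem_univ i) (hcon _ (hs i))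
  exact h2 h1

theorem prod_semi (h : IsProduct 𝒜 pr) (i : Fin m) {β : Cl ρ} (hβ : Semiample 𝒜 u β) :
    Semiample 𝒜 u (pr i β) := by
  obtain ⟨k, hk, h1⟩ := hβ
  refine ⟨k, hk, fun p hp => ?_⟩
  obtain ⟨r, hr, hr0⟩ := h1 p hp
  by_contra hcon
  push Not at hcon
  apply hr0
  have h2 := h.kuenneth _ r hr
  have h3 : Submodule.span ℂ
      {t : R | ∃ s : Fin m → R, (∀ i, s i ∈ 𝒜 (pr i (k • β))) ∧ t = ∏ i, s i}
      ≤ LinearMap.ker p.toLinearMap := by
    rw [Submodule.span_le]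
    rintro t ⟨s, hs, rfl⟩
    change p (∏ i, s i) = 0
    rw [map_prod]
    refine Finset.prod_eq_zero (Finset.mem_univ i) (hcon _ ?_)
    have h4 := hs i
    rwa [map_nsmul] at h4
  exact h3 h2

variable [GradedAlgebra 𝒜]

/-- Sums of classes which are semiample with the same multiple are semiample. -/
theorem sum_semi {β : Fin m → Cl ρ} {k : ℕ} (hk : 0 < k)
    (h : ∀ j, ∀ p : R →ₐ[ℂ] ℂ, Semistable 𝒜 u p → ∃ r ∈ 𝒜 (k • β j), p r ≠ 0) :
    Semiample 𝒜 u (∑ j, β j) := by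
  refine ⟨k, hk, fun p hp => ?_⟩
  choose r hr hr0 using fun j => h j p hp
  refine ⟨∏ j, r j, ?_, ?_⟩
  · rw [Finset.smul_sum]
    exact SetLike.prod_mem_graded 𝒜 _ _ fun j _ => hr j
  · rw [map_prod]
    exact Finset.prod_ne_zero_iff.2 fun j _ => hr0 j

end F

section G

variable {ρ m : ℕ} {R : Type*} [CommRing R] [Algebra ℂ R] {𝒜 : Cl ρ → Submodule ℂ R}
  {u : Cl ρ} {pr : Fin m → Cl ρ →+ Cl ρ} {G : Type*} [Group G] {φ : G →* (R ≃ₐ[ℂ] R)}
  {σ : G →* AddMonoid.End (Cl ρ)} {π : G →* Equiv.Perm (Fin m)}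

theorem phi_inv (g : G) (r : R) : φ g (φ g⁻¹ r) = r := by
  rw [← AlgEquiv.mul_apply, ← map_mul, mul_inv_cancel, map_one, AlgEquiv.one_apply]

theorem IsAction.stable (h : IsAction 𝒜 u pr φ σ π) (g : G) {p : R →ₐ[ℂ] ℂ}
    (hp : Semistable 𝒜 u p) : Semistable 𝒜 u (p.comp (φ g : R →ₐ[ℂ] R)) := by
  obtain ⟨k, hk, r, hr, hr0⟩ := hp
  refine ⟨k, hk, φ g⁻¹ r, ?_, ?_⟩
  · have h1 := h.deg g⁻¹ _ r hr
    rwa [map_nsmul, h.ample] at h1
  · change p (φ g (φ g⁻¹ r)) ≠ 0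
    rwa [phi_inv]

theorem IsAction.move (h : IsAction 𝒜 u pr φ σ π) (g : G) {β : Cl ρ} {k : ℕ}
    (hβ : ∀ p : R →ₐ[ℂ] ℂ, Semistable 𝒜 u p → ∃ r ∈ 𝒜 (k • β), p r ≠ 0) :
    ∀ p : R →ₐ[ℂ] ℂ, Semistable 𝒜 u p → ∃ r ∈ 𝒜 (k • σ g β), p r ≠ 0 := by
  intro p hp
  obtain ⟨r, hr, hr0⟩ := hβ _ (h.stable g hp)
  refine ⟨φ g r, ?_, hr0⟩
  have h1 := h.deg g _ r hr
  rwa [map_nsmul] at h1

/-- A sheaf on the quotient is semiample if its pullback is semiample. -/
theorem IsAction.descend [Finite G] [GradedAlgebra 𝒜] (h : IsAction 𝒜 u pr φ σ π) (L : Sheaf σ)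
    (hL : Semiample 𝒜 u L.deg) : L.IsSemiample 𝒜 u φ := by
  classical
  have := Fintype.ofFinite G
  obtain ⟨k, hk, h1⟩ := hL
  refine ⟨Fintype.card G * k, Nat.mul_pos Fintype.card_pos hk, fun p hp => ?_⟩
  obtain ⟨r, hr, hr0⟩ := Module.Dual.exists_forall_mem_ne_zero_of_forall_exists (𝒜 (k • L.deg))
    (fun g : G => (p.comp (φ g : R →ₐ[ℂ] R)).toLinearMap) (fun g => h1 _ (h.stable g hp))
  let s : G → R := fun g => (((L.χ g)⁻¹ : ℂˣ) : ℂ) ^ k • φ g r
  have hs : ∀ g, s g ∈ 𝒜 (k • L.deg) := by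
    intro g
    apply Submodule.smul_mem
    have h2 := h.deg g _ r hr
    rwa [map_nsmul, L.inv] at h2
  refine ⟨∏ g, s g, ⟨?_, fun g => ?_⟩, ?_⟩
  · have h2 := SetLike.prod_mem_graded 𝒜 (fun _ : G => k • L.deg) s (F := Finset.univ)
      (fun g _ => hs g)
    rwa [Finset.sum_const, Finset.card_univ, smul_smul] at h2
  · have h3 : ∀ g', φ g (s g') = (L.χ g : ℂ) ^ k • s (g * g') := by
      intro g'
      change φ g ((((L.χ g')⁻¹ : ℂˣ) : ℂ) ^ k • φ g' r)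
        = (L.χ g : ℂ) ^ k • ((((L.χ (g * g'))⁻¹ : ℂˣ) : ℂ) ^ k • φ (g * g') r)
      rw [map_smul, smul_smul, ← mul_pow, map_mul φ, AlgEquiv.mul_apply]
      congr 2
      rw [← Units.val_mul, map_mul, mul_inv_rev, mul_comm, mul_assoc, inv_mul_cancel, mul_one]
    rw [map_prod, Finset.prod_congr rfl fun g' _ => h3 g', Finset.prod_smul,
      Finset.prod_const, Finset.card_univ, ← pow_mul, mul_comm k]
    congr 1
    exact Fintype.prod_equiv (Equiv.mulLeft g) _ _ fun g' => rfl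
  · rw [map_prod]
    refine Finset.prod_ne_zero_iff.2 fun g _ => ?_
    rw [map_smul, smul_eq_mul]
    exact mul_ne_zero (pow_ne_zero _ (Units.ne_zero _)) (hr0 g)

/-- The conjecture for the quotient follows from the one for the factor. -/
theorem of_factor [IsDomain R] [Finite G] [GradedAlgebra 𝒜] (hp : IsProduct 𝒜 pr)
    (h : IsAction 𝒜 u pr φ σ π) (i : Fin m) (hi : SYZFactor 𝒜 u pr σ π i) :
    SYZQuotient 𝒜 u φ σ := by
  intro L hn hb
  choose g hg using fun j => h.trans i j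
  have hm : ∀ j β, σ (g j) β = β → σ (g j) (pr i β) = pr j β := by
    intro j β hβ
    rw [h.perm, hg, hβ]
  have h1 : Semiample 𝒜 u (pr i L.deg) := by
    refine hi _ (hp.idem i _) (fun g' hg' => by rw [h.perm, hg', L.inv]) (fun n => ?_) ?_
    · have h2 := prod_semi hp i (hn n)
      rwa [map_add, map_nsmul] at h2
    · rintro ⟨k, hk, r, hr, hr0⟩
      refine hb ⟨k, hk, ∏ j, φ (g j) r, ?_, ?_⟩
      · have h2 : ∀ j, φ (g j) r ∈ 𝒜 (k • pr j L.deg - pr j u) := by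
          intro j
          have h3 := h.deg (g j) _ r hr
          rwa [map_sub, map_nsmul, hm j _ (L.inv _), hm j _ (h.ample _)] at h3
        have h4 := SetLike.prod_mem_graded 𝒜 (fun j => k • pr j L.deg - pr j u)
          (fun j => φ (g j) r) (F := Finset.univ) (fun j _ => h2 j)
        rwa [Finset.sum_sub_distrib, ← Finset.smul_sum, hp.sum, hp.sum] at h4
      · refine Finset.prod_ne_zero_iff.2 fun j _ => ?_
        rwa [Ne, map_eq_zero_iff _ (φ (g j)).injective]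
  obtain ⟨k, hk, h2⟩ := h1
  apply h.descend
  rw [← hp.sum L.deg]
  refine sum_semi hk fun j => ?_
  have h3 := h.move (g j) h2
  rwa [hm j _ (L.inv _)] at h3

/-- The conjecture for the quotient implies the one for the factor. -/
theorem of_quotient [GradedAlgebra 𝒜] (hp : IsProduct 𝒜 pr)
    (h : IsAction 𝒜 u pr φ σ π) (i : Fin m) (hM : SYZQuotient 𝒜 u φ σ) :
    SYZFactor 𝒜 u pr σ π i := by
  intro β hβ hinv hn hb
  choose g hg using fun j => h.trans i j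
  have hmul : ∀ a b : G, ∀ x : Cl ρ, σ (a * b) x = σ a (σ b x) := by
    intro a b x
    rw [map_mul]
    rfl
  have hproj : ∀ j, pr j (σ (g j) β) = σ (g j) β := by
    intro j
    have h1 := h.perm (g j) i β
    rw [hβ, hg] at h1
    exact h1.symm
  have hi : pr i (∑ j, σ (g j) β) = β := by
    rw [map_sum, Finset.sum_eq_single i]
    · rw [hproj]
      exact hinv _ (hg i)
    · intro j _ hj
      rw [← hproj j]
      exact hp.orth i j (fun e => hj e.symm) _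
    · intro hk
      exact absurd (Finset.mem_univ i) hk
  let L : Sheaf σ := ⟨∑ j, σ (g j) β, 1, fun g' => by
    rw [map_sum]
    refine Fintype.sum_equiv (π g') _ _ fun j => ?_
    rw [← hmul]
    have h2 : π ((g (π g' j))⁻¹ * (g' * g j)) i = i := by
      rw [map_mul, map_mul, map_inv, Equiv.Perm.mul_apply, Equiv.Perm.mul_apply, hg,
        Equiv.Perm.inv_eq_iff_eq, hg]
    have h3 := hinv _ h2
    conv_rhs => rw [← h3]
    rw [← hmul, mul_inv_cancel_left]⟩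
  have hLn : L.IsNef 𝒜 u := by
    intro n
    obtain ⟨k, hk, h1⟩ := hn n
    have h2 : n • L.deg + u = ∑ j, σ (g j) (n • β + pr i u) := by
      change n • (∑ j, σ (g j) β) + u = _
      conv_lhs => rw [← hp.sum u]
      rw [Finset.smul_sum, ← Finset.sum_add_distrib]
      refine Finset.sum_congr rfl fun j _ => ?_
      rw [map_add, map_nsmul, h.perm, hg, h.ample]
    rw [h2]
    exact sum_semi hk fun j => h.move (g j) h1
  have hLb : ¬ L.IsBig 𝒜 u := by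
    rintro ⟨k, hk, hr⟩
    refine hb ⟨k, hk, ?_⟩
    have h1 := prod_eff hp i hr
    rwa [map_sub, map_nsmul, hi] at h1
  obtain ⟨k, hk, h1⟩ := hM L hLn hLb
  rw [← hi]
  refine prod_semi hp i ⟨k, hk, fun p hp' => ?_⟩
  obtain ⟨r, hr, hr0⟩ := h1 p hp'
  exact ⟨r, hr.1, hr0⟩

end G

end Pool.Agent.W4h4.SY
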